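import Pool.Agent.H95.RQ.Targets1

/-!
# HQI: the Herbrand quotient and subgroups of finite index
-/

set_option autoImplicit false

namespace Pool.Agent.H54.RQ

open Pool.Agent.H95.RQ Pool.Agent.H28.RC

variable {A : Type} [CommGroup A]

theorem idx (g : A →* A) (B C : Subgroup A) (h : B ≤ C) :
    B.relIndex C = (B.map g).relIndex (C.map g) * (B ⊓ g.ker).relIndex (C ⊓ g.ker) := by
  have h1 : (B.map g).relIndex (C.map g) = ((B ⊔ g.ker) ⊓ C).relIndex C := by
    rw [Subgroup.inf_relIndex_right, ← Subgroup.comap_map_eq, Subgroup.relIndex_comap]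
  have h2 : (B ⊔ g.ker) ⊓ C = (C ⊓ g.ker) ⊔ B := by
    rw [sup_inf_assoc_of_le _ h, inf_comm g.ker C, sup_comm]
  have h3 : (B ⊓ g.ker).relIndex (C ⊓ g.ker) = B.relIndex ((B ⊔ g.ker) ⊓ C) := by
    rw [h2, Subgroup.relIndex_sup_right, ← Subgroup.inf_relIndex_right B (C ⊓ g.ker),
      ← inf_assoc, inf_eq_left.2 h]
  rw [h1, h3, mul_comm, Subgroup.relIndex_mul_relIndex]
  · exact le_inf le_sup_left h
  · exact inf_le_right

theorem nm_shift (s : A →* A) (n : ℕ) (hs : ∀ a, s^[n] a = a) (a : A) :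
    ∏ i ∈ Finset.range n, s^[i + 1] a = ∏ i ∈ Finset.range n, s^[i] a := by
  have h1 := Finset.prod_range_succ (fun i => s^[i] a) n
  have h2 := Finset.prod_range_succ' (fun i => s^[i] a) n
  rw [h1, hs] at h2
  simp only [Function.iterate_zero, id_eq] at h2
  exact (mul_right_cancel h2).symm

theorem dl_nm (s : A →* A) (n : ℕ) (hs : ∀ a, s^[n] a = a) (a : A) : dl s (nm s n a) = 1 := by
  show s (∏ i ∈ Finset.range n, s^[i] a) / (∏ i ∈ Finset.range n, s^[i] a) = 1
  rw [map_prod, div_eq_one, ← nm_shift s n hs a]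
  refine Finset.prod_congr rfl fun i _ => ?_
  rw [← Function.iterate_succ_apply' s i a]

theorem nm_dl (s : A →* A) (n : ℕ) (hs : ∀ a, s^[n] a = a) (a : A) : nm s n (dl s a) = 1 := by
  have h1 : nm s n (s a) = nm s n a := by
    show ∏ i ∈ Finset.range n, s^[i] (s a) = ∏ i ∈ Finset.range n, s^[i] a
    rw [← nm_shift s n hs a]
    refine Finset.prod_congr rfl fun i _ => ?_
    rw [Function.iterate_succ_apply]
  show nm s n (s a / a) = 1
  rw [map_div, h1, div_self']

theorem iter_mem (s : A →* A) (D : Subgroup A) (hD : ∀ b ∈ D, s b ∈ D) (i : ℕ) (a : A)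
    (ha : a ∈ D) : s^[i] a ∈ D := by
  induction i with
  | zero => exact ha
  | succ k ih =>
    rw [Function.iterate_succ_apply']
    exact hD _ ih

theorem map_nm_le (s : A →* A) (n : ℕ) (hs : ∀ a, s^[n] a = a) (D : Subgroup A)
    (hD : ∀ b ∈ D, s b ∈ D) : D.map (nm s n) ≤ D ⊓ (dl s).ker := by
  rintro _ ⟨a, ha, rfl⟩
  refine ⟨?_, ?_⟩
  · have h : ∏ i ∈ Finset.range n, s^[i] a ∈ D :=
      Subgroup.prod_mem _ fun i _ => iter_mem s D hD i a ha
    exact h
  · exact MonoidHom.mem_ker.2 (dl_nm s n hs a)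

theorem map_dl_le (s : A →* A) (n : ℕ) (hs : ∀ a, s^[n] a = a) (D : Subgroup A)
    (hD : ∀ b ∈ D, s b ∈ D) : D.map (dl s) ≤ D ⊓ (nm s n).ker := by
  rintro _ ⟨a, ha, rfl⟩
  refine ⟨?_, ?_⟩
  · exact D.div_mem (hD a ha) ha
  · exact MonoidHom.mem_ker.2 (nm_dl s n hs a)

theorem pf_HQI : T_HQI := by
  intro A _ s n B C _ hs hB hC hBC hidx h0B h1B
  have e1 := Subgroup.relIndex_mul_relIndex (B.map (nm s n)) (C.map (nm s n)) (C ⊓ (dl s).ker)
    (Subgroup.map_mono hBC) (map_nm_le s n hs C hC)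
  have e2 := Subgroup.relIndex_mul_relIndex (B.map (nm s n)) (B ⊓ (dl s).ker) (C ⊓ (dl s).ker)
    (map_nm_le s n hs B hB) (inf_le_inf_right _ hBC)
  have e3 := Subgroup.relIndex_mul_relIndex (B.map (dl s)) (C.map (dl s)) (C ⊓ (nm s n).ker)
    (Subgroup.map_mono hBC) (map_dl_le s n hs C hC)
  have e4 := Subgroup.relIndex_mul_relIndex (B.map (dl s)) (B ⊓ (nm s n).ker) (C ⊓ (nm s n).ker)
    (map_dl_le s n hs B hB) (inf_le_inf_right _ hBC)
  have e5 := idx (nm s n) B C hBC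
  have e6 := idx (dl s) B C hBC
  rw [← e2] at e1
  rw [← e4] at e3
  change (B.map (nm s n)).relIndex (C.map (nm s n)) * h0 s n C =
    h0 s n B * (B ⊓ (dl s).ker).relIndex (C ⊓ (dl s).ker) at e1
  change (B.map (dl s)).relIndex (C.map (dl s)) * h1 s n C =
    h1 s n B * (B ⊓ (nm s n).ker).relIndex (C ⊓ (nm s n).ker) at e3
  generalize (B.map (nm s n)).relIndex (C.map (nm s n)) = a at e1 e5
  generalize (B ⊓ (dl s).ker).relIndex (C ⊓ (dl s).ker) = b at e1 e6
  generalize (B.map (dl s)).relIndex (C.map (dl s)) = c at e3 e6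
  generalize (B ⊓ (nm s n).ker).relIndex (C ⊓ (nm s n).ker) = d at e3 e5
  generalize B.relIndex C = N at hidx e5 e6
  generalize h0 s n B = x at h0B e1 ⊢
  generalize h1 s n B = y at h1B e3 ⊢
  generalize h0 s n C = z at e1 ⊢
  generalize h1 s n C = w at e3 ⊢
  have hb : b ≠ 0 := by
    rintro rfl
    rw [mul_zero] at e6
    exact hidx e6
  have hd : d ≠ 0 := by
    rintro rfl
    rw [mul_zero] at e5
    exact hidx e5
  refine ⟨?_, ?_, ?_⟩
  · rintro rfl
    rw [mul_zero] at e1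
    exact (mul_ne_zero h0B hb) e1.symm
  · rintro rfl
    rw [mul_zero] at e3
    exact (mul_ne_zero h1B hd) e3.symm
  · have h1 : N * (z * y) = N * (x * w) := by
      calc N * (z * y) = (a * z) * (d * y) := by rw [e5]; ring
        _ = (x * b) * (y * d) := by rw [e1]; ring
        _ = (c * w) * (x * b) := by rw [e3]; ring
        _ = N * (x * w) := by rw [e6]; ring
    exact Nat.eq_of_mul_eq_mul_left (Nat.pos_of_ne_zero hidx) h1

end Pool.Agent.H54.RQ
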